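import Mathlib
import Pool.Agent.H84.Asq

namespace Pool.Agent.Results.MP_fe8a5b_an.Yes

open Pool.Agent.H84.AsqDefs Pool.Agent.H84.Asq

theorem result : ∃ (M : Type) (_ : MetricSpace M), Nonempty M ∧
    ¬ Bornology.IsBounded (Set.univ : Set M) ∧ (∃ δ > (0 : ℝ), ∀ x y : M, x ≠ y → δ ≤ dist x y) ∧
    ∀ x₀ : M, LipASQ x₀ :=
  ⟨MM, inferInstance, ⟨pt (0, 0)⟩, unbounded, ⟨1, one_pos, discrete⟩, asq⟩

end Pool.Agent.Results.MP_fe8a5b_an.Yes
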